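import Mathlib
import Pool.Agent.Helper54K9.Mono.Upper
import Pool.Agent.Helper90K9.NG.Main
import Pool.Agent.Helper90K9.NG.Upper

/-!
# 3SUM: `o(log n)` negations do not help, `log₂ n + O(1)` negations do

The input is a set `S` of at most `n` integers in `[-W, W]`, given by its characteristic vector: there
is one variable for every integer of `[-W, W]`, which is `1` if the integer belongs to `S` and `0`
otherwise. The question is whether three different elements of `S` have the sum zero.

A circuit (`NegCircuit κ U`, in `Pool/Agent/Helper90K9/NG/Circ.lean`; the gates without negation are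
those of `Circuit κ U`, in `Pool/Agent/Helper54K9/Mono/Approx.lean`) computes with real numbers. Its
gates are maximum and minimum of any number of arguments (OR and AND of unbounded fan-in), arbitrary
monotone real functions of `κ` arguments, and negations (`0` if the argument is positive, `1`
otherwise). The arguments of a gate are constants, input variables and earlier gates. The circuit
accepts if its output is positive. `size` is the number of all gates, `neg` the set of the positions
of the negations.

* Lower bound. If a random circuit with at most `t` negations decides the question with error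
  probability at most `1 / 3` on every input (`Decides`) and `W ≥ n`, then the expected number `T` of
  gates satisfies `n ^ 2 ≤ (κ ^ 2 + 1) * 2 ^ (6 t + 29 * √(log₂ n) + 75) * (T + 1)`.
* Upper bound without negations. For every `W` there is a deterministic circuit with maximum and
  minimum gates only which has `(2 * W + 1) ^ 2 + 1` gates and is correct for all subsets of
  `[-W, W]`. So for `W = n` and `o(log n)` negations the exponent of the number of gates is
  exactly `2`.
* Upper bound with `t ≥ log₂ (2 W + 2)` negations: a deterministic circuit with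
  `3 (2 W + 1) + 3 t + 2` gates (`κ = 2`) is correct for all subsets of `[-W, W]`. So for `W = n` and
  `log₂ n + 2` negations the exponent is `1`.

Proof of the lower bound. Take `m = 12 * 2 ^ t` copies of the tests of
`Pool/Agent/Helper54K9/Mono/Tests.lean` (sparse positive tests `P_j`, dense random negative tests
`T_j`) in residue classes modulo `4 m ^ 2` in such a way that the copies have no solution in common:
the residues are `j`, `m j` and `-(j + m j)`. The background of level `j` is
`B_j = T_0 ∪ ... ∪ T_(j-1)`; it has no solution, and `B_j ∪ P_j` has one. If a circuit with `t`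
negations rejects `B_j` and accepts `B_j ∪ P_j`, then so does one of the `2 ^ (t + 1)` monotone
circuits which arise if the negations before the first one that distinguishes the two sets are
replaced by constants (`cover`). A monotone circuit with less than `n ^ (2 - o(1)) / m` gates does
this on average for at most `1 + o(1)` levels: if it accepts `B_j ∪ P_j` for a positive proportion
of the `P_j`, then the method of approximations, relative to the background `B_j`, shows that it
accepts `B_j ∪ T_j = B_(j+1)` almost surely, and hence all later backgrounds (`sep_count`).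
-/

set_option autoImplicit false

namespace Pool.Agent.Results.MP_8f87b2_lc.FewNegations

open Helper54K9.Mono Pool.Agent.Helper90K9.NG

theorem result :
    (∀ (κ n W t : ℕ), 1 ≤ n → n ≤ W → ∀ (Γ : Type) (_ : Fintype Γ) (w : Γ → ℝ),
      (∀ γ, 0 ≤ w γ) → ∑ γ, w γ = 1 → ∀ C : Γ → NegCircuit κ (Set.Icc (-(W : ℤ)) W),
      (∀ γ, (C γ).neg.card ≤ t) → Pool.Agent.Helper90K9.NG.Decides n W w C →
      (n : ℝ) ^ 2 ≤ ((κ : ℝ) ^ 2 + 1) * 2 ^ (6 * (t : ℝ) + 29 * √(Real.logb 2 n) + 75) *
        (∑ γ, w γ * (C γ).size + 1)) ∧
    (∀ W : ℕ, ∃ C : NegCircuit 0 (Set.Icc (-(W : ℤ)) W), C.size = (2 * W + 1) ^ 2 + 1 ∧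
      C.neg = ∅ ∧
      ∀ S : Finset ℤ, (∀ a ∈ S, a ∈ Set.Icc (-(W : ℤ)) W) → (C.Accepts S ↔ HasZeroSum S)) ∧
    ∀ W t : ℕ, 2 * W + 2 ≤ 2 ^ t → ∃ C : NegCircuit 2 (Set.Icc (-(W : ℤ)) W),
      C.size = 3 * (2 * W + 1) + 3 * t + 2 ∧ C.neg.card ≤ t ∧
      ∀ S : Finset ℤ, (∀ a ∈ S, a ∈ Set.Icc (-(W : ℤ)) W) → (C.Accepts S ↔ HasZeroSum S) := by
  refine ⟨fun _ n W t hn hnW _ _ w hw hw1 C ht hC => lower_bound n W t hn hnW w hw hw1 C ht hC,
    fun W => ?_, fun W t ht => upper W t ht HasZeroSum⟩
  refine ⟨⟨(trivialCircuit W).size, (trivialCircuit W).gate, ∅,
    fun i hi _ => (trivialCircuit W).isGate i hi, fun i _ hi => absurd hi (by simp),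
    (trivialCircuit W).out, (trivialCircuit W).isOut⟩, rfl, rfl, fun S hS => ?_⟩
  exact trivial_accepts W S hS

end Pool.Agent.Results.MP_8f87b2_lc.FewNegations
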