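import Pool.Agent.Helper74K9.SP3.Main
import Pool.Agent.Helper74K9.SP3.Upper

/-!
# Random monotone span programs for 3SUM

A monotone span program over a field is the algebraic model of monotone computation by linear
algebra (equivalently, of linear secret sharing): every input variable owns some vectors, and the
program accepts if the target vector lies in the span of the vectors of the variables which are
true.  The input here is a set of at most `n` integers in `[-W, W]`, given by its characteristic
vector.  We prove that random monotone span programs over arbitrary fields (also over several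
different ones) which decide 3SUM with error probability at most `1 / 3` have expected size at
least `n ^ (2 - o(1))`; the exponent `2` is exact for `W = n`.
-/

set_option autoImplicit false

namespace Pool.Agent.Results.MP_8f87b2_lc.MonotoneSpanPrograms

open Pool.Agent.Helper74K9.SP3

/-- (1) Let `1 ≤ n ≤ W`.  If a random monotone span program (the program `P j` over the field `K j`
with probability `w j`) errs with probability at most `1 / 3` on every set of at most `n` integers
in `[-W, W]`, then its expected size is at least `n² / 2^(22 √(log₂ n) + 20) - 1`.
(2) Over every field and for every `W` there is one monotone span program with at most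
`3 (2 W + 1)²` rows which is correct on all subsets of `[-W, W]`. -/
theorem result :
    (∀ (n W : ℕ) (J : Type) [Fintype J] (K : J → Type) [∀ j, Field (K j)]
      (P : ∀ j, SpanProgram (K j)) (w : J → ℝ), (∀ j, 0 ≤ w j) → ∑ j, w j = 1 →
      Decides P w n W → 1 ≤ n → n ≤ W →
      (n : ℝ) ^ 2 ≤ 2 ^ (22 * √(Real.logb 2 n) + 20) *
        (∑ j, w j * ((P j).size : ℝ) + 1)) ∧
    (∀ (K : Type) [Field K] (W : ℕ), ∃ P : SpanProgram K, P.size ≤ 3 * (2 * W + 1) ^ 2 ∧
      ∀ S : Finset ℤ, S ⊆ Finset.Icc (-(W : ℤ)) W → (P.Accepts S ↔ HasZeroSum S)) :=
  ⟨fun _ _ _ _ _ _ P w hw hw1 hdec hn hW => lower P w hw hw1 hdec hn hW,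
    fun K _ W => upper K W⟩

end Pool.Agent.Results.MP_8f87b2_lc.MonotoneSpanPrograms
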