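import Pool.Agent.Helper68K9.TC.Final

/-!
# Integer 3SUM: time times space of random two-way programs with two-sided error

The input is a set of at most `n` integers between `-W` and `W`, `W ≥ 4 n`, given by its
characteristic vector: every integer has its cell on a tape, in an order which may be chosen
together with the program.  A nonuniform, clocked program (`TwoWay`) with at most `s` states moves a
head over the tape, at most one cell in each of its `T` steps.

Random programs which are deterministic, or only unambiguous (every input has at most one accepting
computation), and are wrong with probability at most `1 / 200` satisfy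
`T log₂ (T s + 1) ≥ δ n W` (time times space).  The programs of the hand-in `TwoWayPrograms` are
nondeterministic, but never accept a set with a solution; it has also the upper bounds.

Proof. Let `m = ⌊(n - 1) / 2⌋`. For `t < B = W - 6 m` and `x, y ⊆ {0, …, m - 1}` take the set which
consists of `-(6 m - 1 + t)`, the `m + i` for `i ∈ x` and the `5 m - 1 + t - i` for `i ∈ y`; it has a
solution if and only if `x` and `y` have a common element. Cut the tape at the cells `k w + o`,
`w = ⌊B / 32⌋`; for most `t` at least half of the pairs are separated, and for half of the `o < w` an
accepting computation crosses the cuts at most `2 T / w` times. For unambiguous programs the inputs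
with given crossings form a set that is closed under the exchange of the contents of the segments,
and these sets are disjoint. New is a corruption lemma (`Pool.Agent.Helper68K9.TB.corrupt`) for such
sets, in the manner of Razborov's for two players: their part of the disjoint pairs `x, y` is at most
`64` times their part of the pairs with exactly one common element, up to `e ^ (- m / 160)`.
-/

set_option autoImplicit false

namespace Pool.Agent.Results.MP_8f87b2_lc.TwoSidedError

open Pool.Agent.Helper62K9.TW Pool.Agent.Helper68K9.TS Pool.Agent.Helper68K9.TB

/-- There are `δ > 0` and `n₀` such that for all `n ≥ n₀` and all `W ≥ 4 n` the following holds.  Let a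
random two-way program be given (the program `P r`, with at most `s` states, with probability
`p r`), whose input is the characteristic vector of a set of integers between `-W` and `W`.  (1) If
the programs are unambiguous, accept each set of at most `n` integers which contains three distinct
integers with sum zero with probability at most `1 / 200`, and each other set of at most `n` integers
with probability at least `1 - 1 / 200` (always in `T` steps), then `T log₂ (T s + 1) ≥ δ n W`.
(2) The same inequality holds if the programs are deterministic and, for each set of at most `n`
integers, the statement that the program accepts it in `T` steps if and only if there is a solution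
is false with probability at most `1 / 200`. -/
theorem result : ∃ δ : ℝ, 0 < δ ∧ ∃ n₀ : ℕ,
    ∀ (n W T s : ℕ) (R : Type) [Fintype R] (p : R → ℝ) (Q : R → Type) [∀ r, Fintype (Q r)]
      (P : ∀ r, TwoWay (Cells W) (Q r)),
      n₀ ≤ n → 4 * n ≤ W → (∀ r, 0 ≤ p r) → ∑ r, p r = 1 →
      (∀ r, Fintype.card (Q r) ≤ s) →
      ((∀ r, Unambiguous (P r) T) →
        (∀ x : Cells W → Bool, size x ≤ n → HasSol x →
          ∑ r, Set.indicator {r | (P r).Accepts T x} p r ≤ 1 / 200) →
        (∀ x : Cells W → Bool, size x ≤ n → ¬ HasSol x →
          1 - 1 / 200 ≤ ∑ r, Set.indicator {r | (P r).Accepts T x} p r) →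
        δ * (n * W : ℝ) ≤ T * Real.logb 2 (T * s + 1)) ∧
      ((∀ r, Deterministic (P r)) →
        (∀ x : Cells W → Bool, size x ≤ n →
          ∑ r, Set.indicator {r | ¬ ((P r).Accepts T x ↔ HasSol x)} p r ≤ 1 / 200) →
        δ * (n * W : ℝ) ≤ T * Real.logb 2 (T * s + 1)) := by
  obtain ⟨δ, hδ, n₀, h⟩ := Pool.Agent.Helper68K9.TC.lower2
  obtain ⟨δ', hδ', n₀', h'⟩ := Pool.Agent.Helper68K9.TC.lower3
  refine ⟨min δ δ', lt_min hδ hδ', max n₀ n₀', ?_⟩
  intro n W T s R _ p Q _ P hn hW hp hp1 hQ
  have hn2 : (0 : ℝ) ≤ (n * W : ℝ) := by positivity
  constructor
  · intro h1 h2 h3
    exact (mul_le_mul_of_nonneg_right (min_le_left _ _) hn2).trans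
      (h n W T s R p Q P ((le_max_left _ _).trans hn) hW hp hp1 hQ h1 h2 h3)
  · intro h1 h2
    exact (mul_le_mul_of_nonneg_right (min_le_right _ _) hn2).trans
      (h' n W T s R p Q P ((le_max_right _ _).trans hn) hW hp hp1 hQ h1 h2)

end Pool.Agent.Results.MP_8f87b2_lc.TwoSidedError
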