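import Pool.Agent.Helper68K9.TC.Upper

/-!
# Integer 3SUM: time times space of nondeterministic two-way programs on the characteristic vector

The input is a set of at most `n` integers between `-W` and `W`, given by its characteristic vector:
every integer has its cell on a tape, in an order which may be chosen together with the program.  A
nondeterministic, nonuniform, clocked program (`TwoWay`) with `s` states moves a head over the tape,
at most one cell in each of its `T` steps.  Special cases are streaming algorithms with `⌊log₂ s⌋`
bits of memory that read the stream several times.

A random program that never accepts a set which contains three distinct integers with sum zero, and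
accepts every other set with probability at least `ε`, satisfies `T log₂ (T s + 1) ≥ δ n W` (time
times space), for all `W ≥ 4 n`.  One pass (`T = 2 W + 1`) of a deterministic program with `2 W + 1`
bits, or with `n log₂ (2 W + 2) + 1` bits, is enough. So the order is `n ^ 2` for the dense sets, `W` of
the order `n`, and it is `n W` up to a factor `log W` in general.

Proof. Let `m = ⌊(n - 1) / 2⌋`. For `t < B = W - 6 m` take the sets which contain `-(6 m - 1 + t)` and,
for every `i < m`, exactly one of the integers `m + i` and `5 m - 1 + t - i`; a set of this kind has no
solution, but a solution arises as soon as both members of a pair are present. Cut the tape at the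
cells `k w + o`, where `w` is a small multiple of `B`; for most `t` at least half of the pairs are
separated, and for half of the `o < w` an accepting computation crosses the cuts at most `2 T / w`
times. The inputs which have accepting computations with given crossings form a set that is closed
under the exchange of the contents of the segments, so those among them which are of the kind above
agree on the separated pairs.
-/

set_option autoImplicit false

namespace Pool.Agent.Results.MP_8f87b2_lc.TwoWayPrograms

open Pool.Agent.Helper62K9.TW Pool.Agent.Helper68K9.TS Pool.Agent.Helper68K9.TB

/-- (1) For all `ε > 0` there are `δ > 0` and `n₀` such that for all `n ≥ n₀` and all `W ≥ 4 n` the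
following holds.  Let a random two-way program be given (the program `P r`, with at most `s` states,
with probability `p r`), whose input is the characteristic vector of a set of integers between `-W`
and `W`.  Assume that for the sets of at most `n` integers no program of the family accepts in `T`
steps a set which contains three distinct integers with sum zero, and that every other set is
accepted in `T` steps with probability at least `ε`.  Then `T log₂ (T s + 1) ≥ δ n W`.  (2) For all
`W`, `n` and every order of the cells there are two deterministic programs, one with
`2 ^ (2 W + 1)` states and one with at most `(2 W + 2) ^ n + 1` states, that move the head by one cell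
to the right in every step, such that the first accepts in `2 W + 1` steps (the number of the cells)
exactly the sets without three distinct integers with sum zero, and the second accepts in
`2 W + 1` steps, among the sets of at most `n` integers, exactly those. -/
theorem result :
    (∀ ε : ℝ, 0 < ε → ∃ δ : ℝ, 0 < δ ∧ ∃ n₀ : ℕ,
      ∀ (n W T s : ℕ) (R : Type) [Fintype R] (p : R → ℝ) (Q : R → Type) [∀ r, Fintype (Q r)]
        (P : ∀ r, TwoWay (Cells W) (Q r)),
        n₀ ≤ n → 4 * n ≤ W → (∀ r, 0 ≤ p r) → ∑ r, p r = 1 →
        (∀ r, Fintype.card (Q r) ≤ s) →
        (∀ r, ∀ x : Cells W → Bool, size x ≤ n → (P r).Accepts T x → ¬ HasSol x) →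
        (∀ x : Cells W → Bool, size x ≤ n → ¬ HasSol x →
          ε ≤ ∑ r, Set.indicator {r | (P r).Accepts T x} p r) →
        δ * (n * W : ℝ) ≤ T * Real.logb 2 (T * s + 1)) ∧
    (∀ (W n : ℕ) (o : Cells W ≃ Fin (Fintype.card (Cells W))),
      (∃ (Q : Type) (_ : Fintype Q) (P : TwoWay (Cells W) Q),
        Fintype.card Q = 2 ^ (2 * W + 1) ∧ P.order = o ∧ Deterministic P ∧
        (∀ t q j b q' j', P.step t q j b q' j' → j' = j + 1) ∧
        ∀ x : Cells W → Bool, P.Accepts (2 * W + 1) x ↔ ¬ HasSol x) ∧
      (∃ (Q : Type) (_ : Fintype Q) (P : TwoWay (Cells W) Q),
        Fintype.card Q ≤ (2 * W + 2) ^ n + 1 ∧ P.order = o ∧ Deterministic P ∧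
        (∀ t q j b q' j', P.step t q j b q' j' → j' = j + 1) ∧
        ∀ x : Cells W → Bool, size x ≤ n → (P.Accepts (2 * W + 1) x ↔ ¬ HasSol x))) :=
  ⟨Pool.Agent.Helper68K9.TC.lower1, fun W n o =>
    ⟨upper2 W o, Pool.Agent.Helper68K9.TC.upper3 W n o⟩⟩

end Pool.Agent.Results.MP_8f87b2_lc.TwoWayPrograms
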